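import Pool.Agent.H65.CZF.TB

/-! (CNF) the constant. -/

set_option autoImplicit false

namespace Pool.Agent.H81.CZF

open Pool.Agent.H65.CZF Pool.Agent.H65.CRZ

theorem exp_063 : (18776105 : ℝ) / 10000000 < Real.exp (63 / 100) ∧
    Real.exp (63 / 100) < 18776106 / 10000000 := by
  constructor
  · have h := Real.sum_le_exp_of_nonneg (x := 63 / 100) (by norm_num) 10
    refine lt_of_lt_of_le ?_ h
    simp only [Finset.sum_range_succ, Finset.sum_range_zero]
    norm_num [Nat.factorial]
  · have h := Real.exp_bound' (x := 63 / 100) (by norm_num) (by norm_num) (n := 10) (by norm_num)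
    refine lt_of_le_of_lt h ?_
    simp only [Finset.sum_range_succ, Finset.sum_range_zero]
    norm_num [Nat.factorial]

theorem exp_163 : (51038744 : ℝ) / 10000000 < Real.exp (2 * (815 / 1000)) ∧
    Real.exp (2 * (815 / 1000)) < 51038752 / 10000000 := by
  have h1 : Real.exp (2 * (815 / 1000)) = Real.exp 1 * Real.exp (63 / 100) := by
    rw [← Real.exp_add]
    congr 1
    norm_num
  obtain ⟨h2, h3⟩ := exp_063
  have h4 := Real.exp_one_gt_d9
  have h5 := Real.exp_one_lt_d9
  rw [h1]
  constructor
  · refine lt_trans ?_ (mul_lt_mul'' h4 h2 (by norm_num) (by norm_num))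
    norm_num
  · refine lt_trans (mul_lt_mul'' h5 h3 (Real.exp_pos _).le (Real.exp_pos _).le) ?_
    norm_num

theorem cc_bd : 1 ≤ cc (815 / 1000) (908 / 1000) (999 / 1000) ∧
    cc (815 / 1000) (908 / 1000) (999 / 1000) ≤ 143119 / 100000 := by
  obtain ⟨h1, h2⟩ := exp_163
  constructor
  · unfold cc
    simp only
    generalize Real.exp (2 * (815 / 1000)) = E at h1 h2 ⊢
    norm_num
    linarith
  · unfold cc
    simp only
    generalize Real.exp (2 * (815 / 1000)) = E at h1 h2 ⊢
    norm_num
    linarith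

theorem log_bd : Real.log (143119 / 100000) < 3585185 / 10000000 := by
  rw [Real.log_lt_iff_lt_exp (by norm_num)]
  have h := Real.sum_le_exp_of_nonneg (x := 3585185 / 10000000) (by norm_num) 8
  refine lt_of_lt_of_le ?_ h
  simp only [Finset.sum_range_succ, Finset.sum_range_zero]
  norm_num [Nat.factorial]

theorem pf_CNF : T_CNF := by
  obtain ⟨h1, h2⟩ := cc_bd
  refine ⟨h1, ?_⟩
  have h3 : Real.log (cc (815 / 1000) (908 / 1000) (999 / 1000)) < 3585185 / 10000000 :=
    lt_of_le_of_lt (Real.log_le_log (by linarith) h2) log_bd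
  have h4 : Real.log (cc (815 / 1000) (908 / 1000) (999 / 1000)) / (815 / 1000) <
      3585185 / 10000000 / (815 / 1000) := div_lt_div_of_pos_right h3 (by norm_num)
  norm_num at h4 ⊢
  linarith

end Pool.Agent.H81.CZF
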