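import Pool.Agent.H81.CZF.LFU
import Pool.Agent.H65.CRG.FH
import Pool.Agent.H19.CRZ.SY

/-! (FNZ) the zeros are finite in number. -/

set_option autoImplicit false

open NumberField NumberField.InfinitePlace Complex Filter Topology MeasureTheory Set

namespace Pool.Agent.H81.CZF

open Pool.Agent.H65.CZF Pool.Agent.H33.HC Pool.Agent.H33.HH Pool.Agent.H28.RC Pool.Agent.H37.CV
open Pool.Agent.H65.CRZ (zc St SZ Zx cA cc)
open Pool.Agent.H65.CRG (LFg VQ cQ kn pm qm CZ TK el)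

theorem cnd_pos' {K : Type} [Field K] [NumberField K] (χ : RCC K) : 0 < cnd K χ.f := by
  unfold cnd
  have h1 : 0 < |(discr K : ℝ)| := by
    rw [abs_pos]
    exact_mod_cast NumberField.discr_ne_zero K
  have h2 : 0 < nm χ.f := by
    unfold nm
    have h3 : Ideal.absNorm χ.f ≠ 0 := by
      rw [Ne, Ideal.absNorm_eq_zero_iff]
      exact χ.f_ne
    exact_mod_cast Nat.pos_of_ne_zero h3
  exact mul_pos h1 h2

theorem pf_FNZ (h1 : T_H2U) (h2 : Pool.Agent.H65.CRZ.T_ZM) (h3 : Pool.Agent.H33.HH.T_NRM) :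
    T_FNZ := by
  obtain ⟨C, hC, hb⟩ := h1
  intro K _ _ _ χ hχ
  have hn := nrc h3 K
  obtain ⟨Z, Λ, ε, hZ, hΛ, hΛ1, hε, hΛ2, -⟩ := hχ
  have hex : ∃ Z, IsEnt χ Z := ⟨Z, hZ⟩
  have hent : IsEnt χ (Zx χ) := by
    unfold Zx
    rw [dif_pos hex]
    exact hex.choose_spec
  have hZx : Zx χ = Z := by
    have ha : AnalyticOnNhd ℂ (Zx χ) Set.univ :=
      hent.1.differentiableOn.analyticOnNhd isOpen_univ
    have hb' : AnalyticOnNhd ℂ Z Set.univ := hZ.1.differentiableOn.analyticOnNhd isOpen_univ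
    have hev : Zx χ =ᶠ[𝓝 (2 : ℂ)] Z := by
      have ho : IsOpen {s : ℂ | 1 < s.re} := isOpen_lt continuous_const Complex.continuous_re
      have h2' : (2 : ℂ) ∈ {s : ℂ | 1 < s.re} := by
        simp
      filter_upwards [ho.mem_nhds h2'] with s hs
      rw [hent.2 s hs, hZ.2 s hs]
    funext s
    exact ha.eqOn_of_preconnected_of_eventuallyEq hb' isPreconnected_univ (Set.mem_univ _) hev
      (Set.mem_univ s)
  have hcnd := cnd_pos' χ
  obtain ⟨b, hb32, hb2⟩ : ∃ b : ℝ, 3 / 2 ≤ b ∧ C * (2 : ℝ) ^ (-b) < 1 := by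
    have ht : Tendsto (fun b : ℝ => C * (2 : ℝ) ^ (-b)) atTop (𝓝 (C * 0)) := by
      refine Tendsto.const_mul C ?_
      have h4 := (tendsto_rpow_atTop_of_base_lt_one (1 / 2 : ℝ) (by norm_num) (by norm_num))
      refine h4.congr fun b => ?_
      rw [Real.rpow_neg (by norm_num), ← Real.inv_rpow (by norm_num)]
      norm_num
    rw [mul_zero] at ht
    obtain ⟨b, h5, h6⟩ := (((tendsto_order.1 ht).2 1 one_pos).and
      (eventually_ge_atTop (3 / 2 : ℝ))).exists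
    exact ⟨b, h6, h5⟩
  have hne : ∀ s : ℂ, b ≤ s.re → Zx χ s ≠ 0 := by
    intro s hs h0
    rw [hent.2 s (by linarith)] at h0
    have h4 := (hb K χ s (by linarith)).2
    rw [h0, zero_sub, norm_neg, norm_one] at h4
    have h5 : (2 : ℝ) ^ (-s.re) ≤ (2 : ℝ) ^ (-b) :=
      Real.rpow_le_rpow_of_exponent_le (by norm_num) (by linarith)
    have h6 : C * (2 : ℝ) ^ (-s.re) ≤ C * (2 : ℝ) ^ (-b) :=
      mul_le_mul_of_nonneg_left h5 (by linarith)
    linarith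
  have hε0 : ε ≠ 0 := by
    intro h0
    rw [h0, norm_zero] at hε
    exact zero_ne_one hε
  have hcnd0 : ((cnd K χ.f : ℝ) : ℂ) ≠ 0 := by exact_mod_cast hcnd.ne'
  have hfac : ∀ s : ℂ, 0 < s.im →
      ((cnd K χ.f : ℝ) : ℂ) ^ (s / 2) * Gammaℂ s ^ nrComplexPlaces K ≠ 0 := by
    intro s hs
    refine mul_ne_zero ?_ (pow_ne_zero _ ?_)
    · rw [Complex.cpow_ne_zero_iff]
      exact Or.inl hcnd0
    · rw [Complex.Gammaℂ_def]
      refine mul_ne_zero (mul_ne_zero two_ne_zero ?_)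
        (Complex.Gamma_ne_zero (Pool.Agent.H19.CRZ.no_pole hs))
      rw [Complex.cpow_ne_zero_iff]
      left
      exact mul_ne_zero two_ne_zero (by exact_mod_cast Real.pi_ne_zero)
  have hsym : ∀ ρ : ℂ, 0 < ρ.im → Zx χ ρ = 0 → Zx χ (1 - (starRingEnd ℂ) ρ) = 0 := by
    intro ρ hρ h0
    have h4 : Λ ρ = 0 := by
      rw [hΛ1 ρ (Pool.Agent.H19.CRZ.no_pole hρ), ← hZx, h0, mul_zero]
    have hσ : 0 < (1 - (starRingEnd ℂ) ρ).im := by simpa using hρ
    have h5 : Λ (1 - (starRingEnd ℂ) ρ) = 0 := by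
      have h6 := hΛ2 ρ
      rw [h4] at h6
      have h7 := (mul_eq_zero.1 h6.symm).resolve_left hε0
      exact (map_eq_zero _).1 h7
    rw [hΛ1 _ (Pool.Agent.H19.CRZ.no_pole hσ), ← hZx] at h5
    exact (mul_eq_zero.1 h5).resolve_left (hfac _ hσ)
  refine ⟨hent, fun T => ?_⟩
  have hre : ∀ ρ ∈ St T, Zx χ ρ = 0 → 1 - b < ρ.re ∧ ρ.re < b := by
    intro ρ hρ h0
    constructor
    · by_contra hcon
      push Not at hcon
      have h4 := hsym ρ hρ.1 h0
      refine hne _ ?_ h4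
      simp only [sub_re, one_re, conj_re]
      linarith
    · by_contra hcon
      push Not at hcon
      exact hne ρ hcon h0
  have hfin : {ρ : ℂ | ρ ∈ St T ∧ Zx χ ρ = 0}.Finite := by
    have h4 : IsCompact (Icc (1 - b) b ×ℂ Icc 0 T) := isCompact_Icc.reProdIm isCompact_Icc
    refine (Pool.Agent.H19.CRZ.zeros_finite hent.1 (hne b (by simp)) h4).subset ?_
    rintro ρ ⟨h5, h6⟩
    refine ⟨?_, h6⟩
    rw [Complex.mem_reProdIm]
    have h7 := hre ρ h5 h6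
    exact ⟨⟨h7.1.le, h7.2.le⟩, ⟨h5.1.le, h5.2.le⟩⟩
  have hZM := h2.2 (Zx χ) T (fun s _ => ⟨hent.1.analyticAt s,
    Pool.Agent.H18.PZ.order_ne_top isPreconnected_univ (fun z _ => hent.1.analyticAt z)
      (mem_univ (b : ℂ)) (hne b (by simp)) (mem_univ s)⟩) hfin
  exact ⟨hfin, hZM.1, Nat.cast_nonneg _, hZM.2⟩

end Pool.Agent.H81.CZF
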