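import Pool.Agent.H65.CZF.TB

/-! (KAZ) the simple zeros, for the characters of one field which are not invariant. -/

set_option autoImplicit false

open NumberField NumberField.InfinitePlace Complex Filter Topology MeasureTheory Set

namespace Pool.Agent.H81.CZF

open Pool.Agent.H65.CZF Pool.Agent.H33.HC Pool.Agent.H33.HH Pool.Agent.H28.RC Pool.Agent.H37.CV
open Pool.Agent.H65.CRZ (zc St SZ Zx cA cc)
open Pool.Agent.H65.CRG (LFg VQ cQ kn pm qm CZ TK el)

theorem ka_rpow' (C δ : ℝ) (hδ : 0 < δ) : ∃ x₁ : ℝ, 1 ≤ x₁ ∧ ∀ x : ℝ, x₁ ≤ x →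
    C * x ^ (7 / 4 : ℝ) ≤ δ * x ^ 2 := by
  have h1 : Tendsto (fun x : ℝ => C * x ^ (-(1 / 4 : ℝ))) atTop (𝓝 (C * 0)) :=
    (tendsto_rpow_neg_atTop (by norm_num : (0 : ℝ) < 1 / 4)).const_mul C
  rw [mul_zero] at h1
  obtain ⟨x₁, h2⟩ := eventually_atTop.1 ((tendsto_order.1 h1).2 δ hδ)
  refine ⟨max 1 x₁, le_max_left _ _, fun x hx => ?_⟩
  have hx0 : 0 < x := lt_of_lt_of_le one_pos ((le_max_left _ _).trans hx)
  have h3 := h2 x ((le_max_right _ _).trans hx)
  have h4 : x ^ (7 / 4 : ℝ) = x ^ (-(1 / 4 : ℝ)) * x ^ 2 := by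
    rw [← Real.rpow_natCast, ← Real.rpow_add hx0]
    norm_num
  rw [h4, ← mul_assoc]
  exact mul_le_mul_of_nonneg_right h3.le (by positivity)

theorem nm_top' {K : Type} [Field K] [NumberField K] : nm (⊤ : Ideal (𝓞 K)) = 1 := by
  unfold nm
  rw [← Ideal.one_eq_top, map_one, Nat.cast_one]

theorem pf_KAZ (h1 : T_LWZ) (h2 : Pool.Agent.H33.HH.T_LB3) (h3 : Pool.Agent.H33.HH.T_INV)
    (h4 : T_ZUP) (h5 : T_FNZ) (h6 : T_ENA) : T_KAZ := by
  classical
  intro K _ _ hK
  obtain ⟨C, hC, hI⟩ := h3 K hK.two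
  obtain ⟨c, x₀, hc, hx₀, hL⟩ := h2 K
  obtain ⟨T₁, hT₁, hLW⟩ := h1 K
  obtain ⟨T₂, hT₂, hZ⟩ := h4 1 one_pos
  refine ⟨max T₁ T₂, lt_max_of_lt_left hT₁, fun T hT => ?_⟩
  have hT0 : 0 < T := lt_of_lt_of_le hT₁ ((le_max_left _ _).trans hT)
  obtain ⟨A₀, hA₀, hZA⟩ := hZ T ((le_max_right _ _).trans hT)
  set B : ℝ := max 2 ((2 * Real.pi * A₀) ^ 2) with hB
  obtain ⟨x₁, hx₁, hLx⟩ := hLW T ((le_max_left _ _).trans hT) B
  obtain ⟨x₂, hx₂, hpw⟩ := ka_rpow' (2 * C) (c / 100000) (by positivity)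
  set d : ℝ := |(discr K : ℝ)| with hd
  have hd1 : 1 ≤ d := by
    have h7 : discr K ≠ 0 := NumberField.discr_ne_zero K
    have h8 : (1 : ℤ) ≤ |discr K| := Int.one_le_abs h7
    rw [hd, ← Int.cast_abs]
    exact_mod_cast h8
  refine ⟨max (max x₀ x₁) (max x₂ d), hx₁.trans ((le_max_right _ _).trans (le_max_left _ _)),
    fun x hx => ?_⟩
  have e0 : x₀ ≤ x := (le_max_left _ _).trans ((le_max_left _ _).trans hx)
  have e1 : x₁ ≤ x := (le_max_right _ _).trans ((le_max_left _ _).trans hx)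
  have e2 : x₂ ≤ x := (le_max_left _ _).trans ((le_max_right _ _).trans hx)
  have e3 : d ≤ x := (le_max_right _ _).trans ((le_max_right _ _).trans hx)
  have hx1 : 1 ≤ x := hx₀.trans e0
  have hx0 : 0 < x := by linarith
  have hlx : 0 ≤ Real.log x := Real.log_nonneg hx1
  obtain ⟨hfin, hlow⟩ := hLx x e1
  have hUi : Ui K x ⊆ Al K x := fun χ h => h.2
  have hIv : {χ : RCC K | ¬ NotInv χ ∧ nm χ.f ≤ x} ⊆ Al K x := fun χ h => h.2
  have f1 := hfin.subset hUi
  have f2 := hfin.subset hIv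
  have hS : {χ : RCC K | χ ∈ Al K x ∧ B ≤ nm χ.f}.Finite := hfin.subset fun χ h => h.1
  refine ⟨f1, ?_⟩
  have hns0 : ∀ χ : RCC K, 0 ≤ ns T χ := fun χ => Nat.cast_nonneg _
  -- the bound for the zeros of one function
  have hup : ∀ χ : RCC K, χ ∈ Al K x → B ≤ nm χ.f → ns T χ ≤ 2 * (T / Real.pi * Real.log x) := by
    intro χ hχ hBχ
    have hχx : nm χ.f ≤ x := hχ
    have hn2 : (2 : ℝ) ≤ nm χ.f := (le_max_left _ _).trans hBχ
    have hne : χ.f ≠ ⊤ := by
      intro h
      rw [h, nm_top'] at hn2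
      norm_num at hn2
    have hEn := h6 K χ (Or.inl hne)
    have hcnd : cnd K χ.f = d * nm χ.f := rfl
    have hcA0 : A₀ ≤ cA K χ.f := by
      unfold cA
      rw [le_div_iff₀ (by positivity)]
      refine Real.le_sqrt_of_sq_le ?_
      rw [hcnd]
      calc (A₀ * (2 * Real.pi)) ^ 2 = (2 * Real.pi * A₀) ^ 2 := by ring
        _ ≤ nm χ.f := (le_max_right _ _).trans hBχ
        _ ≤ d * nm χ.f := le_mul_of_one_le_left (by linarith) hd1
    have h7 := hZA K χ hEn hcA0
    have h8 := ((h5 K χ hEn).2 T).2.2.2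
    refine h8.trans (h7.trans ?_)
    have h9 : Real.log (cA K χ.f) ≤ Real.log x := by
      refine Real.log_le_log (by linarith) ?_
      unfold cA
      rw [div_le_iff₀ (by positivity)]
      have h10 : Real.sqrt (cnd K χ.f) ≤ x := by
        rw [Real.sqrt_le_left hx0.le, hcnd, sq]
        exact mul_le_mul e3 hχx (by linarith) hx0.le
      have h11 : (1 : ℝ) ≤ 2 * Real.pi := by
        have := Real.pi_gt_three
        linarith
      exact h10.trans (le_mul_of_one_le_right hx0.le h11)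
    have h12 : (1 + 1 : ℝ) * (T / Real.pi * Real.log (cA K χ.f)) ≤
        2 * (T / Real.pi * Real.log x) := by
      have h13 : T / Real.pi * Real.log (cA K χ.f) ≤ T / Real.pi * Real.log x :=
        mul_le_mul_of_nonneg_left h9 (by positivity)
      linarith
    exact h12
  -- the sum over all the characters is split
  rw [finsum_mem_eq_finite_toFinset_sum _ hS] at hlow
  rw [finsum_mem_eq_finite_toFinset_sum _ f1]
  have hsplit : ∑ χ ∈ hS.toFinset, ns T χ ≤ ∑ χ ∈ f1.toFinset, ns T χ +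
      ({χ : RCC K | ¬ NotInv χ ∧ nm χ.f ≤ x}.ncard : ℝ) * (2 * (T / Real.pi * Real.log x)) := by
    rw [← Finset.sum_filter_add_sum_filter_not hS.toFinset (fun χ => NotInv χ)]
    refine add_le_add ?_ ?_
    · refine Finset.sum_le_sum_of_subset_of_nonneg ?_ fun χ _ _ => hns0 χ
      intro χ hχ
      rw [Finset.mem_filter, Set.Finite.mem_toFinset] at hχ
      rw [Set.Finite.mem_toFinset]
      exact ⟨hχ.2, hχ.1.1⟩
    · calc ∑ χ ∈ hS.toFinset.filter (fun χ => ¬ NotInv χ), ns T χ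
          ≤ ∑ χ ∈ hS.toFinset.filter (fun χ => ¬ NotInv χ), 2 * (T / Real.pi * Real.log x) := by
            refine Finset.sum_le_sum fun χ hχ => ?_
            rw [Finset.mem_filter, Set.Finite.mem_toFinset] at hχ
            exact hup χ hχ.1.1 hχ.1.2
        _ = ((hS.toFinset.filter (fun χ => ¬ NotInv χ)).card : ℝ) *
            (2 * (T / Real.pi * Real.log x)) := by
            rw [Finset.sum_const, nsmul_eq_mul]
        _ ≤ _ := by
            refine mul_le_mul_of_nonneg_right ?_ (by positivity)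
            rw [Set.ncard_eq_toFinset_card _ f2]
            have : hS.toFinset.filter (fun χ => ¬ NotInv χ) ⊆ f2.toFinset := by
              intro χ hχ
              rw [Finset.mem_filter, Set.Finite.mem_toFinset] at hχ
              rw [Set.Finite.mem_toFinset]
              exact ⟨hχ.2, hχ.1.1⟩
            exact_mod_cast Finset.card_le_card this
  have hIx := hI x hx1
  have hLa := hL x e0
  have hpx := hpw x e2
  set Na : ℝ := ((Al K x).ncard : ℝ) with hNa
  have hNU : ((Ui K x).ncard : ℝ) ≤ Na := by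
    rw [hNa]
    exact_mod_cast Set.ncard_le_ncard hUi hfin
  set Ni : ℝ := ({χ : RCC K | ¬ NotInv χ ∧ nm χ.f ≤ x}.ncard : ℝ) with hNi
  set V : ℝ := T / Real.pi * (Real.log x / 2) with hV
  have hV0 : 0 ≤ V := by positivity
  have hinv : Ni * (2 * (T / Real.pi * Real.log x)) ≤ 2 / 100000 * V * Na := by
    have h7 : 2 * (T / Real.pi * Real.log x) = 4 * V := by
      rw [hV]
      ring
    rw [h7]
    have h8 : 2 * Ni ≤ 1 / 100000 * Na := by
      have h9 : 2 * C * x ^ (7 / 4 : ℝ) ≤ 1 / 100000 * (c * x ^ 2) := by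
        refine hpx.trans (le_of_eq ?_)
        ring
      linarith
    nlinarith
  have hUV : 56006 / 100000 * V * ((Ui K x).ncard : ℝ) ≤ 56006 / 100000 * V * Na :=
    mul_le_mul_of_nonneg_left hNU (by positivity)
  have h14 : 56008 / 100000 * V * Na = 56006 / 100000 * V * Na + 2 / 100000 * V * Na := by ring
  linarith

end Pool.Agent.H81.CZF
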