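import Pool.Agent.H65.CZF.TA

/-! (LFU) functional equations of degree two with uniform constants. -/

set_option autoImplicit false

open NumberField NumberField.InfinitePlace Complex Filter Topology MeasureTheory Set

namespace Pool.Agent.H81.CZF

open Pool.Agent.H65.CZF Pool.Agent.H33.HC Pool.Agent.H33.HH Pool.Agent.H28.RC Pool.Agent.H37.CV
open Pool.Agent.H65.CRZ (zc St SZ Zx cA cc)
open Pool.Agent.H65.CRG (LFg VQ cQ kn pm qm CZ TK el)

theorem cpow_exp' {x : ℝ} (hx : 0 < x) (s : ℂ) :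
    ((x : ℝ) : ℂ) ^ s = cexp ((Real.log x : ℂ) * s) := by
  rw [Complex.cpow_def_of_ne_zero (by exact_mod_cast hx.ne'), Complex.ofReal_log hx.le]

theorem cA_cpow' {K : Type} [Field K] [NumberField K] {m : Ideal (𝓞 K)} (h : 0 < cnd K m) (s : ℂ) :
    ((cA K m : ℝ) : ℂ) ^ s = ((cnd K m : ℝ) : ℂ) ^ (s / 2) * (2 * (Real.pi : ℂ)) ^ (-s) := by
  have hpi : (0 : ℝ) < 2 * Real.pi := by positivity
  have hA : 0 < cA K m := by
    unfold cA
    positivity
  have e1 : (2 * (Real.pi : ℂ)) = ((2 * Real.pi : ℝ) : ℂ) := by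
    push_cast
    rfl
  have e2 : Real.log (cA K m) = Real.log (cnd K m) / 2 - Real.log (2 * Real.pi) := by
    unfold cA
    rw [Real.log_div (by positivity) hpi.ne', Real.log_sqrt h.le]
  rw [e1, cpow_exp' hA, cpow_exp' h, cpow_exp' hpi, ← Complex.exp_add, e2]
  congr 1
  push_cast
  ring

theorem nrc (hN : T_NRM) (K : Type) [Field K] [NumberField K] [IQ K] : nrComplexPlaces K = 1 := by
  obtain ⟨h1, -⟩ := hN K
  have h2 : nrRealPlaces K = 0 := IsTotallyComplex.nrRealPlaces_eq_zero K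
  have h3 := card_add_two_mul_card_eq_rank K
  have h4 : Module.finrank ℚ K = 2 := IQ.two
  omega

theorem pf_LFU (h1 : T_H1U) (h2 : T_H2U) (h3 : Pool.Agent.H33.HH.T_NRM) : T_LFU := by
  obtain ⟨C₁, hC₁, hb₁⟩ := h1
  obtain ⟨C₂, hC₂, hb₂⟩ := h2
  refine ⟨max C₁ C₂, 1, hC₁.trans (le_max_left _ _), le_rfl, ?_⟩
  intro K _ _ _ χ hχ hA1
  have hn := nrc h3 K
  have hE := hχ
  obtain ⟨Z, Λ, ε, hZ, hΛ, hΛ1, hε, hΛ2, -⟩ := hχ
  have hex : ∃ Z, IsEnt χ Z := ⟨Z, hZ⟩
  have hent : IsEnt χ (Zx χ) := by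
    unfold Zx
    rw [dif_pos hex]
    exact hex.choose_spec
  have hZx : Zx χ = Z := by
    have ha : AnalyticOnNhd ℂ (Zx χ) Set.univ :=
      hent.1.differentiableOn.analyticOnNhd isOpen_univ
    have hb : AnalyticOnNhd ℂ Z Set.univ := hZ.1.differentiableOn.analyticOnNhd isOpen_univ
    have hev : Zx χ =ᶠ[𝓝 (2 : ℂ)] Z := by
      have ho : IsOpen {s : ℂ | 1 < s.re} := isOpen_lt continuous_const Complex.continuous_re
      have h2' : (2 : ℂ) ∈ {s : ℂ | 1 < s.re} := by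
        simp
      filter_upwards [ho.mem_nhds h2'] with s hs
      rw [hent.2 s hs, hZ.2 s hs]
    funext s
    exact ha.eqOn_of_preconnected_of_eventuallyEq hb isPreconnected_univ (Set.mem_univ _) hev
      (Set.mem_univ s)
  have hcnd : 0 < cnd K χ.f := by
    by_contra h4
    have h5 : cA K χ.f = 0 := by
      unfold cA
      rw [Real.sqrt_eq_zero_of_nonpos (not_lt.1 h4), zero_div]
    rw [h5] at hA1
    linarith
  refine ⟨hent, hent.1, ⟨fun s => Λ s / 2, ε, hΛ.div_const _, hε, ?_, ?_⟩, ?_, ?_⟩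
  · intro s hs
    change Λ s / 2 = _
    rw [hΛ1 s hs, hZx, cA_cpow' hcnd, hn, pow_one, pow_one, Complex.Gammaℂ_def]
    ring
  · intro s
    change Λ s / 2 = ε * (starRingEnd ℂ) (Λ (1 - (starRingEnd ℂ) s) / 2)
    rw [map_div₀, map_ofNat, ← mul_div_assoc, ← hΛ2 s]
  · intro s hs
    refine (hb₁ K χ hE hA1 (Zx χ) hent s hs).trans
      (Real.rpow_le_rpow_of_exponent_le ?_ (le_max_left _ _))
    have h5 : (1 : ℝ) ≤ 2 + |s.im| := by
      have := abs_nonneg s.im
      linarith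
    nlinarith
  · intro s hs
    rw [hent.2 s (by linarith)]
    exact (hb₂ K χ s hs).2.trans (mul_le_mul_of_nonneg_right (le_max_right _ _) (by positivity))

end Pool.Agent.H81.CZF
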