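import Pool.Agent.H65.CZF.TB

/-! (SMQ) the simple zeros, for one smooth part of the conductor. -/

set_option autoImplicit false

open NumberField NumberField.InfinitePlace Complex Filter Topology MeasureTheory Set

namespace Pool.Agent.H81.CZF

open Pool.Agent.H65.CZF Pool.Agent.H33.HC Pool.Agent.H33.HH Pool.Agent.H28.RC Pool.Agent.H37.CV
open Pool.Agent.H65.CRZ (zc St SZ Zx cA cc)
open Pool.Agent.H65.CRG (LFg VQ cQ kn pm qm CZ TK el)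

theorem CZ_sub_SZ' (n : ℕ) (m : ℕ → ℝ) (A : ℝ) (Z : ℂ → ℂ) (T : ℝ) :
    CZ Z (VQ n 1 m A Z) 0 T ⊆ SZ Z 0 T := by
  rintro ρ ⟨h1, h2, h3, h4, h5⟩
  refine ⟨h1, fun h6 => h2 ?_, h3, h4, h5⟩
  have h7 : TK (el n A) Z (2 * 0 + 1) ρ = 0 := by
    show deriv Z ρ + el n A ρ * Z ρ = 0
    rw [h1, h6, mul_zero, add_zero]
  unfold VQ
  rw [Finset.sum_range_one, h7, h1]
  simp

theorem pf_SMQ (h1 : T_FMF) (h2 : T_CNF) (h3 : Pool.Agent.H65.CRG.T_QL) (h4 : T_FNZ) (h5 : T_ENA)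
    (h6 : T_FAM) : T_SMQ := by
  intro K _ _ _ W hW hW1
  obtain ⟨-, hcc⟩ := h2
  set m : ℕ → ℝ := fun _ => (908 / 1000 : ℝ) / (1 - (908 / 1000 : ℝ) / 2) with hm
  have hcQ : cQ 1 m (815 / 1000) (999 / 1000) = cc (815 / 1000) (908 / 1000) (999 / 1000) :=
    h3 (815 / 1000) (908 / 1000) (999 / 1000) (by norm_num) (by norm_num) (by norm_num)
      (by norm_num)
  have hpm : 0 < 1 + pm 1 m (1 / 2) := by
    unfold pm
    rw [Finset.sum_range_one, hm]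
    norm_num
  have hpar : Par (999 / 1000) (1 / 8000) := ⟨by norm_num, by norm_num, by norm_num⟩
  obtain ⟨P₀, hP₀⟩ := h1 K W 1 m (815 / 1000) (999 / 1000) (1 / 8000) hW hW1 hpm (by norm_num) hpar
    (1 - Real.log (cc (815 / 1000) (908 / 1000) (999 / 1000)) / (815 / 1000) - 5601 / 10000)
    (by linarith)
  refine ⟨P₀, fun P hP k hk => ?_⟩
  obtain ⟨T₀, hT₀, hT⟩ := hP₀ P hP k hk
  obtain ⟨κ₁, Q₁, hκ₁, hQ₁, hF⟩ := h6 K P W k hW hk
  refine ⟨T₀, hT₀, fun T hTT => ?_⟩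
  obtain ⟨Q₀, hQ₀, hQ⟩ := hT T hTT
  refine ⟨max Q₀ Q₁, hQ₀.trans (le_max_left _ _), fun Q hQQ => ?_⟩
  have h7 := hQ Q ((le_max_left _ _).trans hQQ)
  have h8 : (1 - Real.log (cQ 1 m (815 / 1000) (999 / 1000)) / (815 / 1000) -
      (1 - Real.log (cc (815 / 1000) (908 / 1000) (999 / 1000)) / (815 / 1000) -
        5601 / 10000)) = 5601 / 10000 := by
    rw [hcQ]
    ring
  rw [h8] at h7
  refine h7.trans ((hF Q ((le_max_right _ _).trans hQQ)).1 _ _ ?_)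
  intro χ hχ _ _
  obtain ⟨-, h9⟩ := h4 K χ (h5 K χ (Or.inl hχ))
  unfold ns
  exact_mod_cast Set.ncard_le_ncard (CZ_sub_SZ' 1 m (cA K χ.f) (Zx χ) T) (h9 T).2.1

end Pool.Agent.H81.CZF
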