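import Pool.Agent.H65.CZF.TB

/-! (TLZ) the zeros of the large discriminants. -/

set_option autoImplicit false

open NumberField NumberField.InfinitePlace Complex Filter Topology MeasureTheory Set

namespace Pool.Agent.H81.CZF

open Pool.Agent.H65.CZF Pool.Agent.H33.HC Pool.Agent.H33.HH Pool.Agent.H28.RC Pool.Agent.H37.CV
open Pool.Agent.H65.CRZ (zc St SZ Zx cA cc)
open Pool.Agent.H65.CRG (LFg VQ cQ kn pm qm CZ TK el)

theorem nm_one_le {K : Type} [Field K] [NumberField K] (χ : RCC K) : 1 ≤ nm χ.f := by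
  unfold nm
  have h3 : Ideal.absNorm χ.f ≠ 0 := by
    rw [Ne, Ideal.absNorm_eq_zero_iff]
    exact χ.f_ne
  exact_mod_cast Nat.pos_of_ne_zero h3

theorem nz_nonneg (T : ℝ) {K : Type} [Field K] [NumberField K] (χ : RCC K) : 0 ≤ nz T χ := by
  unfold nz zc
  refine finsum_nonneg fun ρ => ?_
  refine finsum_nonneg fun _ => Nat.cast_nonneg _

theorem pf_TLZ (h1 : T_TAD) (h2 : T_ZUP) (_h3 : T_FNZ) (h4 : T_ENA) : T_TLZ := by
  classical
  obtain ⟨C, hC, hA⟩ := h1
  obtain ⟨T₀, hT₀, hZ⟩ := h2 1 one_pos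
  refine ⟨C, T₀, hC, hT₀, ?_⟩
  intro T hT D hD K _ _ hK
  have hT0 : 0 < T := lt_of_lt_of_le hT₀ hT
  obtain ⟨A₀, hA₀, hZA⟩ := hZ T hT
  set B' : ℝ := (2 * Real.pi * A₀) ^ 2 with hB'
  have hpi := Real.pi_gt_three
  have hB1 : 1 ≤ B' := by
    rw [hB']
    have : 1 ≤ 2 * Real.pi * A₀ := by nlinarith
    exact one_le_pow₀ this
  set G : ℤ → ℝ := fun d => ∑ᶠ χ ∈ Ui (K d) (B' / |(d : ℝ)|), nz T χ with hG
  have hUA : ∀ (d : ℤ) (x : ℝ), Ui (K d) x ⊆ Al (K d) x := fun d x χ h => h.2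
  have hfd : ∀ d ∈ D, IsFund d := fun d hd => (hD d hd).1
  have hdn : ∀ d ∈ D, d ≠ 0 := by
    intro d hd h
    have := (hD d hd).2
    omega
  have hd1 : ∀ d ∈ D, 1 ≤ |(d : ℝ)| := by
    intro d hd
    have h8 : (1 : ℤ) ≤ |d| := Int.one_le_abs (hdn d hd)
    rw [← Int.cast_abs]
    exact_mod_cast h8
  have hAB := fun Y hY => hA D hfd K hK B' Y hB1 hY
  have hfinB : ∀ d ∈ FD D B', (Ui (K d) (B' / |(d : ℝ)|)).Finite := fun d hd =>
    ((hAB 1 le_rfl).1 d hd).subset (hUA d _)
  have hG0 : ∀ d : ℤ, 0 ≤ G d := by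
    intro d
    rw [hG]
    exact finsum_nonneg fun χ => finsum_nonneg fun _ => nz_nonneg T χ
  refine ⟨∑ d ∈ FD D B', G d, Finset.sum_nonneg fun d _ => hG0 d, ?_⟩
  intro X Y hX hY
  have hX0 : 0 < X := by linarith
  have hlX : 0 ≤ Real.log X := Real.log_nonneg (by linarith)
  obtain ⟨hfin, hsum⟩ := hA D hfd K hK X Y (by linarith) hY
  set V : ℝ := T / Real.pi * Real.log X with hV
  have hV0 : 0 ≤ V := by positivity
  -- one field
  have key : ∀ d ∈ FD D X, ∑ᶠ χ ∈ Ui (K d) (X / |(d : ℝ)|), nz T χ ≤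
      V * ((Al (K d) (X / |(d : ℝ)|)).ncard : ℝ) + (if d ∈ FD D B' then G d else 0) := by
    intro d hd
    have hdD : d ∈ D := ((mem_FD D X d).1 hd).2
    obtain ⟨k1, k2⟩ := hK d hdD
    have hIQ : IQ (K d) := ⟨k1, by rw [k2]; exact (hD d hdD).2⟩
    have hdp : 0 < |(d : ℝ)| := by linarith [hd1 d hdD]
    have hcn : ∀ χ : RCC (K d), cnd (K d) χ.f = |(d : ℝ)| * nm χ.f := by
      intro χ
      unfold cnd
      rw [k2]
    have fA := hfin d hd
    have fU : (Ui (K d) (X / |(d : ℝ)|)).Finite := fA.subset (hUA d _)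
    rw [finsum_mem_eq_finite_toFinset_sum _ fU]
    rw [← Finset.sum_filter_add_sum_filter_not fU.toFinset (fun χ => A₀ ≤ cA (K d) χ.f)]
    refine add_le_add ?_ ?_
    · have hb : ∀ χ ∈ fU.toFinset.filter (fun χ => A₀ ≤ cA (K d) χ.f), nz T χ ≤ V := by
        intro χ hχ
        rw [Finset.mem_filter, Set.Finite.mem_toFinset] at hχ
        obtain ⟨⟨hN, hx⟩, hc⟩ := hχ
        refine (hZA (K d) χ (h4 (K d) χ (Or.inr hN)) hc).trans ?_
        have e1 : Real.log (cA (K d) χ.f) ≤ Real.log X / 2 := by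
          rw [← Real.log_sqrt hX0.le]
          refine Real.log_le_log (by linarith) ?_
          unfold cA
          rw [div_le_iff₀ (by positivity), hcn]
          have h5 : |(d : ℝ)| * nm χ.f ≤ X := by
            rw [le_div_iff₀ hdp] at hx
            linarith
          have h6 : Real.sqrt (|(d : ℝ)| * nm χ.f) ≤ Real.sqrt X := Real.sqrt_le_sqrt h5
          refine h6.trans (le_mul_of_one_le_right (Real.sqrt_nonneg _) (by linarith))
        rw [hV]
        calc (1 + 1) * (T / Real.pi * Real.log (cA (K d) χ.f))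
            ≤ (1 + 1) * (T / Real.pi * (Real.log X / 2)) := by
              refine mul_le_mul_of_nonneg_left ?_ (by norm_num)
              exact mul_le_mul_of_nonneg_left e1 (by positivity)
          _ = T / Real.pi * Real.log X := by ring
      refine (Finset.sum_le_sum hb).trans ?_
      rw [Finset.sum_const, nsmul_eq_mul, mul_comm]
      refine mul_le_mul_of_nonneg_left ?_ hV0
      rw [Set.ncard_eq_toFinset_card _ fA]
      have : fU.toFinset.filter (fun χ => A₀ ≤ cA (K d) χ.f) ⊆ fA.toFinset := by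
        intro χ hχ
        rw [Finset.mem_filter, Set.Finite.mem_toFinset] at hχ
        rw [Set.Finite.mem_toFinset]
        exact hUA d _ hχ.1
      exact_mod_cast Finset.card_le_card this
    · -- small conductors
      have hsm : ∀ χ ∈ fU.toFinset.filter (fun χ => ¬ A₀ ≤ cA (K d) χ.f),
          |(d : ℝ)| * nm χ.f ≤ B' ∧ NotInv χ := by
        intro χ hχ
        rw [Finset.mem_filter, Set.Finite.mem_toFinset] at hχ
        obtain ⟨⟨hN, hx⟩, hc⟩ := hχ
        refine ⟨?_, hN⟩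
        push Not at hc
        unfold cA at hc
        rw [div_lt_iff₀ (by positivity), hcn] at hc
        have h5 := (Real.sqrt_le_left (y := A₀ * (2 * Real.pi)) (by positivity)).1 hc.le
        rw [hB']
        calc |(d : ℝ)| * nm χ.f ≤ (A₀ * (2 * Real.pi)) ^ 2 := h5
          _ = (2 * Real.pi * A₀) ^ 2 := by ring
      by_cases hdB : d ∈ FD D B'
      · rw [if_pos hdB]
        have fB := hfinB d hdB
        change _ ≤ ∑ᶠ χ ∈ Ui (K d) (B' / |(d : ℝ)|), nz T χ
        rw [finsum_mem_eq_finite_toFinset_sum _ fB]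
        refine Finset.sum_le_sum_of_subset_of_nonneg ?_ fun χ _ _ => nz_nonneg T χ
        intro χ hχ
        obtain ⟨h5, h6⟩ := hsm χ hχ
        rw [Set.Finite.mem_toFinset]
        refine ⟨h6, ?_⟩
        rw [le_div_iff₀ hdp]
        linarith
      · rw [if_neg hdB]
        refine (Finset.sum_eq_zero fun χ hχ => ?_).le
        exfalso
        obtain ⟨h5, h6⟩ := hsm χ hχ
        apply hdB
        rw [mem_FD]
        refine ⟨?_, hdD⟩
        have h7 : |(d : ℝ)| ≤ B' := by
          have := nm_one_le χ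
          nlinarith
        rw [← Int.cast_abs] at h7
        have h8 : |d| ≤ ⌊B'⌋ := Int.le_floor.2 h7
        exact abs_le.1 h8
  calc ∑ d ∈ (FD D X).filter (fun d : ℤ => Y < |(d : ℝ)|),
        ∑ᶠ χ ∈ Ui (K d) (X / |(d : ℝ)|), nz T χ
      ≤ ∑ d ∈ (FD D X).filter (fun d : ℤ => Y < |(d : ℝ)|),
        (V * ((Al (K d) (X / |(d : ℝ)|)).ncard : ℝ) + (if d ∈ FD D B' then G d else 0)) :=
        Finset.sum_le_sum fun d hd => key d (Finset.mem_filter.1 hd).1
    _ = V * ∑ d ∈ (FD D X).filter (fun d : ℤ => Y < |(d : ℝ)|),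
          ((Al (K d) (X / |(d : ℝ)|)).ncard : ℝ) +
        ∑ d ∈ (FD D X).filter (fun d : ℤ => Y < |(d : ℝ)|), (if d ∈ FD D B' then G d else 0) := by
        rw [Finset.sum_add_distrib, Finset.mul_sum]
    _ ≤ C * T * Real.log X * X ^ 2 * Y ^ (-(1 / 4) : ℝ) + ∑ d ∈ FD D B', G d := by
        refine add_le_add ?_ ?_
        · refine (mul_le_mul_of_nonneg_left hsum hV0).trans ?_
          have h5 : V ≤ T * Real.log X := by
            rw [hV]
            refine mul_le_mul_of_nonneg_right ?_ hlX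
            exact div_le_self hT0.le (by linarith)
          have h6 : 0 ≤ C * X ^ 2 * Y ^ (-(1 / 4) : ℝ) := by positivity
          calc V * (C * X ^ 2 * Y ^ (-(1 / 4) : ℝ))
              ≤ T * Real.log X * (C * X ^ 2 * Y ^ (-(1 / 4) : ℝ)) :=
                mul_le_mul_of_nonneg_right h5 h6
            _ = C * T * Real.log X * X ^ 2 * Y ^ (-(1 / 4) : ℝ) := by ring
        · rw [← Finset.sum_filter]
          refine Finset.sum_le_sum_of_subset_of_nonneg ?_ fun d _ _ => hG0 d
          intro d hd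
          exact (Finset.mem_filter.1 hd).2

end Pool.Agent.H81.CZF
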